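import Pool.Agent.helper44.MDG.Spec

/-!
# Row PPP of project MG: the packing for a path
-/

set_option autoImplicit false

namespace Pool.Agent.helper44.MDG

/-- Left end of the closed neighbourhood of run `i`. -/
def PPP_X (s : ℕ → ℕ) (i : ℕ) : ℕ := if 0 < i then s i - 1 else s i

/-- Right end (excluded) of the closed neighbourhood of run `i`. -/
def PPP_Y (r : ℕ) (s : ℕ → ℕ) (i : ℕ) : ℕ := if i + 1 < r then s (i + 1) + 1 else s (i + 1)

theorem PPP_mono {r : ℕ} {s : ℕ → ℕ} (hlen : ∀ i < r, s i + 4 ≤ s (i + 1)) :
    ∀ j i, i ≤ j → j ≤ r → s i ≤ s j := by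
  intro j
  induction j with
  | zero =>
    intro i hi _
    have : i = 0 := by omega
    rw [this]
  | succ j ih =>
    intro i hi hj
    rcases Nat.lt_or_ge i (j + 1) with h | h
    · have h1 := ih i (by omega) (by omega)
      have h2 := hlen j (by omega)
      omega
    · have : i = j + 1 := by omega
      rw [this]

theorem PPP_run {r : ℕ} {s : ℕ → ℕ} (h0 : s 0 = 0) :
    ∀ k ≤ r, ∀ v, v < s k → ∃ i, i < k ∧ s i ≤ v ∧ v < s (i + 1) := by
  intro k
  induction k with
  | zero =>
    intro _ v hv
    omega
  | succ k ih =>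
    intro hk v hv
    rcases Nat.lt_or_ge v (s k) with h | h
    · obtain ⟨i, h1, h2, h3⟩ := ih (by omega) v h
      exact ⟨i, by omega, h2, h3⟩
    · exact ⟨k, by omega, h, hv⟩

theorem PPP_col_ne (e : Bool) (i j : ℕ) (hij : i < j) (h : col e i = col e j) : i + 2 ≤ j := by
  by_contra hc
  have hj : j = i + 1 := by omega
  rw [hj] at h
  unfold col at h
  rcases Nat.mod_two_eq_zero_or_one i with h2 | h2
  · have h3 : (i + 1) % 2 = 1 := by omega
    rw [if_pos h2, if_neg (by omega)] at h
    cases e <;> simp at h
  · have h3 : (i + 1) % 2 = 0 := by omega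
    rw [if_neg (by omega), if_pos h3] at h
    cases e <;> simp at h

/-- Row PPP. -/
theorem PPP : PPP_stmt := by
  classical
  intro n r s e p c hR
  have hlen := hR.len
  have hmono := PPP_mono hlen
  have hsr := hR.sr
  have hs0 := hR.s0
  have hpos := hR.pos
  -- separation of two runs of the same colour
  have hsep : ∀ i j, i < j → j < r → col e i = col e j → s (i + 1) + 4 ≤ s j := by
    intro i j hij hj hc
    have h2 := PPP_col_ne e i j hij hc
    have h3 := hlen (i + 1) (by omega)
    have h4 := hmono j (i + 1 + 1) (by omega) (by omega)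
    omega
  have hXpos : ∀ i, 0 < i → i < r → 4 ≤ s i := by
    intro i hi hir
    have h1 := hlen 0 (by omega)
    have h2 := hmono i (0 + 1) (by omega) (by omega)
    omega
  have hXle : ∀ i, PPP_X s i ≤ s i ∧ s i ≤ PPP_X s i + 1 := by
    intro i
    unfold PPP_X
    split_ifs <;> omega
  have hYle : ∀ i, s (i + 1) ≤ PPP_Y r s i ∧ PPP_Y r s i ≤ s (i + 1) + 1 := by
    intro i
    unfold PPP_Y
    split_ifs <;> omega
  have hYn : ∀ i, i < r → PPP_Y r s i ≤ n := by
    intro i hi
    unfold PPP_Y
    split_ifs with h
    · have h1 := hlen (i + 1) h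
      have h2 := hmono r (i + 1 + 1) (by omega) le_rfl
      omega
    · have h2 := hmono r (i + 1) (by omega) le_rfl
      omega
  have hdiff : ∀ i, i < r → PPP_Y r s i = PPP_X s i + (s (i + 1) - s i + bd r i) := by
    intro i hi
    have h1 := hlen i hi
    have h2 := hXpos i
    unfold PPP_Y PPP_X bd
    split_ifs with ha hb hb <;> omega
  set P : Finset (Fin n) := Finset.univ.filter (fun u : Fin n => ∃ i, i < r ∧ col e i = !p ∧
    PPP_X s i ≤ u.val ∧ u.val < PPP_Y r s i ∧ (u.val - PPP_X s i) % 3 = 0) with hP
  refine ⟨P, ⟨?_, ?_⟩, ?_⟩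
  · intro x hx
    rw [hP, Finset.mem_filter] at hx
    obtain ⟨-, i, hi, hci, hx1, hx2, -⟩ := hx
    have hl := hlen i hi
    have hin := hmono r (i + 1) (by omega) le_rfl
    have a := hXle i
    have b := hYle i
    by_cases h1 : x.val < s i
    · refine ⟨⟨s i, by omega⟩, ?_, ?_⟩
      · rw [← hci]
        exact hR.colour i hi _ (by simp) (by simp only; omega)
      · simp only [NP, Finset.mem_filter, Finset.mem_univ, true_and]
        omega
    · by_cases h2 : x.val < s (i + 1)
      · refine ⟨x, ?_, ?_⟩
        · rw [← hci]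
          exact hR.colour i hi _ (by omega) h2
        · simp [NP]
      · refine ⟨⟨s (i + 1) - 1, by omega⟩, ?_, ?_⟩
        · rw [← hci]
          exact hR.colour i hi _ (by simp only; omega) (by simp only; omega)
        · simp only [NP, Finset.mem_filter, Finset.mem_univ, true_and]
          omega
  · intro v hv
    obtain ⟨i, hi, hv1, hv2⟩ := PPP_run (r := r) hs0 r le_rfl v.val (by rw [hsr]; exact v.2)
    have hci : col e i = !p := by
      rw [← hR.colour i hi v hv1 hv2]
      exact hv
    have key : ∀ x : Fin n, x ∈ P → x ∈ NP n v →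
        PPP_X s i ≤ x.val ∧ (x.val - PPP_X s i) % 3 = 0 := by
      intro x hx hxv
      rw [hP, Finset.mem_filter] at hx
      obtain ⟨-, i', hi', hci', hx1, hx2, hx3⟩ := hx
      simp only [NP, Finset.mem_filter, Finset.mem_univ, true_and] at hxv
      have a := hXle i'
      have b := hYle i'
      rcases Nat.lt_trichotomy i i' with h | h | h
      · exfalso
        have := hsep i i' h hi' (by rw [hci, hci'])
        omega
      · subst h
        exact ⟨hx1, hx3⟩
      · exfalso
        have := hsep i' i h hi (by rw [hci, hci'])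
        omega
    intro x hx y hy hxv hyv
    have kx := key x hx hxv
    have ky := key y hy hyv
    simp only [NP, Finset.mem_filter, Finset.mem_univ, true_and] at hxv hyv
    apply Fin.ext
    omega
  · set F : Finset (Σ _ : ℕ, ℕ) := ((Finset.range r).filter (fun i => col e i = !p)).sigma
      (fun i => Finset.range ((s (i + 1) - s i + bd r i + 2) / 3)) with hF
    have hcard : F.card = cntP r s e (!p) := by
      rw [hF, Finset.card_sigma]
      simp only [Finset.card_range]
      rfl
    rw [← hcard]
    refine le_trans ?_ (Finset.card_image_le (s := P) (f := fun u : Fin n => u.val))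
    refine Finset.card_le_card_of_injOn (fun t => PPP_X s t.1 + 3 * t.2) ?_ ?_
    · intro t ht
      rw [Finset.mem_coe, hF, Finset.mem_sigma, Finset.mem_filter, Finset.mem_range,
        Finset.mem_range] at ht
      obtain ⟨⟨hi, hci⟩, hj⟩ := ht
      have hd := hdiff t.1 hi
      have hn := hYn t.1 hi
      have hlt : PPP_X s t.1 + 3 * t.2 < PPP_Y r s t.1 := by omega
      rw [Finset.mem_coe, Finset.mem_image]
      refine ⟨⟨PPP_X s t.1 + 3 * t.2, by omega⟩, ?_, rfl⟩
      rw [hP, Finset.mem_filter]
      refine ⟨Finset.mem_univ _, t.1, hi, hci, ?_, ?_, ?_⟩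
      · simp only; omega
      · simpa using hlt
      · simp only; omega
    · intro t ht t' ht' heq
      rw [Finset.mem_coe, hF, Finset.mem_sigma, Finset.mem_filter, Finset.mem_range,
        Finset.mem_range] at ht ht'
      obtain ⟨⟨hi, hci⟩, hj⟩ := ht
      obtain ⟨⟨hi', hci'⟩, hj'⟩ := ht'
      simp only at heq
      have hd := hdiff t.1 hi
      have hd' := hdiff t'.1 hi'
      have a := hXle t.1
      have b := hYle t.1
      have a' := hXle t'.1
      have b' := hYle t'.1
      rcases Nat.lt_trichotomy t.1 t'.1 with h | h | h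
      · exfalso
        have := hsep _ _ h hi' (by rw [hci, hci'])
        omega
      · obtain ⟨i, j⟩ := t
        obtain ⟨i', j'⟩ := t'
        simp only at h
        subst h
        simp only at heq
        have : j = j' := by omega
        rw [this]
      · exfalso
        have := hsep _ _ h hi (by rw [hci, hci'])
        omega

end Pool.Agent.helper44.MDG
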